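import Pool.Agent.Helper39.SW.ManyW

/-!
# The charging lemma with true weights (general form)
-/

set_option autoImplicit false

namespace Pool.Agent.Helper11.SX

open Pool.Agent.Helper39.SW

variable {E : Type} [Fintype E] [DecidableEq E]

/-- The charging lemma: potential `u`, values `h` on `S`, true weights `w` on `B`, `bt y` half of the
class bottom. -/
theorem charge_gen {k : ℕ} (M : Fin k → Matroid E)
    (hE : ∀ i, (M i).E = Set.univ) (cls : E → ℕ) (u h w bt : E → ℝ) (c₀ : ℝ)
    (hu0 : ∀ e, 0 ≤ u e)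
    (hu1 : ∀ e, ∑ x ∈ Finset.univ.filter (fun x => cls e < cls x), u x < u e)
    (hu2 : ∀ e e' y, cls e = cls y → cls e' = cls y →
      ∑ x ∈ Finset.univ.filter (fun x => cls y < cls x), u x + u y < u e + u e')
    (hu3 : ∀ e y, cls e = cls y → w y < w e →
      ∑ x ∈ Finset.univ.filter (fun x => cls y < cls x), u x + u y < u e)
    (hh0 : ∀ e, 0 ≤ h e) (hbt0 : ∀ e, 0 ≤ bt e)
    (h1' : ∀ e y, cls y < cls e → h e ≤ bt y)
    (h2' : ∀ e y, cls e = cls y → h e ≤ 2 * bt y)
    (h3' : ∀ e y, cls e = cls y → w e ≤ w y → h e + ((k : ℝ) - 1) * bt y ≤ c₀ * w y)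
    (h4' : ∀ y, (k : ℝ) * bt y ≤ c₀ * w y)
    (h5' : ∀ e, h e ≤ c₀ * w e) {B S : Finset E}
    (hB : ∀ i, (M i).Indep (B : Set E)) (hS : ∀ i, (M i).Indep (S : Set E))
    (hno : ∀ X ⊆ S \ B, X.Nonempty → ¬ AugG M u B X) :
    ∑ e ∈ S, h e ≤ c₀ * ∑ e ∈ B, w e := by
  classical
  have hex := fun l => exch_level (M l) (hE l) cls (hB l) (hS l)
  choose V φ hV hVi hinj hφ using hex
  obtain ⟨c, hc⟩ : ∃ c : E → ℕ, ∀ e, c e = (Finset.univ.filter fun l => e ∉ V l).card :=
    ⟨_, fun _ => rfl⟩
  have hmem : ∀ (e : E) (l : Fin k), e ∉ V l → c e = 1 → ∀ l', l' ≠ l → e ∈ V l' := by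
    intro e l hel hce l' hl'
    rw [hc, Finset.card_eq_one] at hce
    obtain ⟨l0, hl0⟩ := hce
    by_contra hcon
    have h1 : l ∈ Finset.univ.filter fun l => e ∉ V l :=
      Finset.mem_filter.2 ⟨Finset.mem_univ l, hel⟩
    have h2 : l' ∈ Finset.univ.filter fun l => e ∉ V l :=
      Finset.mem_filter.2 ⟨Finset.mem_univ l', hcon⟩
    rw [hl0, Finset.mem_singleton] at h1 h2
    exact hl' (h2.trans h1.symm)
  have hpot : ∀ y, ∑ e ∈ B, u e ≤
      ∑ e ∈ B.filter (fun e => cls e ≤ cls y), u e +
        ∑ x ∈ Finset.univ.filter (fun x => cls y < cls x), u x := by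
    intro y
    rw [← Finset.sum_filter_add_sum_filter_not B (fun e => cls e ≤ cls y)]
    have h1 : ∑ e ∈ B.filter (fun e => ¬ cls e ≤ cls y), u e ≤
        ∑ e ∈ Finset.univ.filter (fun e => cls y < cls e), u e := by
      refine Finset.sum_le_sum_of_subset_of_nonneg ?_ fun e _ _ => hu0 _
      intro e he
      rw [Finset.mem_filter] at he ⊢
      exact ⟨Finset.mem_univ e, not_le.1 he.2⟩
    linarith
  have hc1 : ∀ e ∈ S \ B, 1 ≤ c e := by
    intro e he
    by_contra hcon
    have h0 : c e = 0 := by omega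
    rw [hc, Finset.card_eq_zero] at h0
    have hall : ∀ l, e ∈ V l := by
      intro l
      by_contra hl
      have h2 : l ∈ Finset.univ.filter fun l => e ∉ V l :=
        Finset.mem_filter.2 ⟨Finset.mem_univ l, hl⟩
      rw [h0] at h2
      exact absurd h2 (Finset.notMem_empty l)
    have heB := (Finset.mem_sdiff.1 he).2
    refine hno {e} (Finset.singleton_subset_iff.2 he) (Finset.singleton_nonempty e)
      ⟨by simp, insert e (B.filter (fun x => cls x ≤ cls e)), ?_, ?_, ?_⟩
    · intro l
      refine (hVi l (cls e)).subset (Finset.coe_subset.2 ?_)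
      refine Finset.insert_subset ?_ Finset.subset_union_left
      exact Finset.mem_union_right _ (Finset.mem_filter.2 ⟨hall l, rfl⟩)
    · intro x hx
      rw [Finset.mem_insert, Finset.mem_filter] at hx
      rw [Finset.mem_union, Finset.mem_singleton]
      tauto
    · rw [Finset.sum_insert (fun h => heB (Finset.mem_filter.1 h).1)]
      have := hpot e
      have := hu1 e
      linarith
  have hpair : ∀ y, ∀ l l', ∀ e ∈ (S \ B) \ V l, ∀ e' ∈ (S \ B) \ V l', φ l e = y →
      φ l' e' = y → cls e = cls y → cls e' = cls y → c e = 1 → c e' = 1 → l = l' := by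
    intro y l l' e he e' he' h1 h2 h3 h4 h5 h6
    by_contra hne
    obtain ⟨heSB, heV⟩ := Finset.mem_sdiff.1 he
    obtain ⟨heSB', heV'⟩ := Finset.mem_sdiff.1 he'
    have heB := (Finset.mem_sdiff.1 heSB).2
    have heB' := (Finset.mem_sdiff.1 heSB').2
    have hee : e ≠ e' := by
      rintro rfl
      exact heV' (hmem e l heV h5 l' (Ne.symm hne))
    have hyBS : y ∈ B \ S := h1 ▸ (hφ l e he).1
    have hyB := (Finset.mem_sdiff.1 hyBS).1
    have hyS := (Finset.mem_sdiff.1 hyBS).2
    have hye : e ≠ y := fun h => heB (h ▸ hyB)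
    have hye' : e' ≠ y := fun h => heB' (h ▸ hyB)
    have hI1 := (hφ l e he).2.2
    rw [h1, h3] at hI1
    have hI2 := (hφ l' e' he').2.2
    rw [h2, h4] at hI2
    have hyF : y ∈ B.filter (fun x => cls x ≤ cls y) := Finset.mem_filter.2 ⟨hyB, le_rfl⟩
    have heF : e ∉ insert e' ((B.filter (fun x => cls x ≤ cls y)).erase y) := by
      intro h
      rcases Finset.mem_insert.1 h with h | h
      · exact hee h
      · exact heB (Finset.mem_filter.1 (Finset.mem_of_mem_erase h)).1
    have heF' : e' ∉ (B.filter (fun x => cls x ≤ cls y)).erase y := fun h =>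
      heB' (Finset.mem_filter.1 (Finset.mem_of_mem_erase h)).1
    refine hno {e, e'} ?_ ⟨e, by simp⟩ ⟨Finset.card_le_two,
      insert e (insert e' ((B.filter (fun x => cls x ≤ cls y)).erase y)), ?_, ?_, ?_⟩
    · intro x hx
      rw [Finset.mem_insert, Finset.mem_singleton] at hx
      rcases hx with rfl | rfl
      · exact heSB
      · exact heSB'
    · intro j
      by_cases hj1 : j = l
      · subst hj1
        refine hI1.subset (Finset.coe_subset.2 ?_)
        refine Finset.insert_subset_insert e (Finset.insert_subset ?_ ?_)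
        · refine Finset.mem_erase.2 ⟨hye', Finset.mem_union_right _ ?_⟩
          exact Finset.mem_filter.2 ⟨hmem e' l' heV' h6 j hne, h4⟩
        · exact Finset.erase_subset_erase y Finset.subset_union_left
      · by_cases hj2 : j = l'
        · subst hj2
          refine hI2.subset (Finset.coe_subset.2 ?_)
          rw [Finset.insert_comm]
          refine Finset.insert_subset_insert e' (Finset.insert_subset ?_ ?_)
          · refine Finset.mem_erase.2 ⟨hye, Finset.mem_union_right _ ?_⟩
            exact Finset.mem_filter.2 ⟨hmem e l heV h5 j (Ne.symm hne), h3⟩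
          · exact Finset.erase_subset_erase y Finset.subset_union_left
        · refine (hVi j (cls y)).subset (Finset.coe_subset.2 ?_)
          refine Finset.insert_subset ?_ (Finset.insert_subset ?_ ?_)
          · exact Finset.mem_union_right _ (Finset.mem_filter.2 ⟨hmem e l heV h5 j hj1, h3⟩)
          · exact Finset.mem_union_right _ (Finset.mem_filter.2 ⟨hmem e' l' heV' h6 j hj2, h4⟩)
          · exact (Finset.erase_subset _ _).trans Finset.subset_union_left
    · intro x hx
      rw [Finset.mem_insert, Finset.mem_insert, Finset.mem_erase, Finset.mem_filter] at hx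
      rw [Finset.mem_union, Finset.mem_insert, Finset.mem_singleton]
      tauto
    · rw [Finset.sum_insert heF, Finset.sum_insert heF']
      have h7 := Finset.add_sum_erase (B.filter (fun x => cls x ≤ cls y)) u hyF
      have h8 := hpot y
      have h9 := hu2 e e' y h3 h4
      linarith
  have hsingle : ∀ y, ∀ l, ∀ e ∈ (S \ B) \ V l, φ l e = y → cls e = cls y → c e = 1 →
      w e ≤ w y := by
    intro y l e he h1 h3 h5
    by_contra hlt
    obtain ⟨heSB, heV⟩ := Finset.mem_sdiff.1 he
    have heB := (Finset.mem_sdiff.1 heSB).2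
    have hyBS : y ∈ B \ S := h1 ▸ (hφ l e he).1
    have hyB := (Finset.mem_sdiff.1 hyBS).1
    have hye : e ≠ y := fun h => heB (h ▸ hyB)
    have hI1 := (hφ l e he).2.2
    rw [h1, h3] at hI1
    have hyF : y ∈ B.filter (fun x => cls x ≤ cls y) := Finset.mem_filter.2 ⟨hyB, le_rfl⟩
    have heF : e ∉ (B.filter (fun x => cls x ≤ cls y)).erase y := fun h =>
      heB (Finset.mem_filter.1 (Finset.mem_of_mem_erase h)).1
    refine hno {e} (Finset.singleton_subset_iff.2 heSB) (Finset.singleton_nonempty e)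
      ⟨by simp, insert e ((B.filter (fun x => cls x ≤ cls y)).erase y), ?_, ?_, ?_⟩
    · intro j
      by_cases hj1 : j = l
      · subst hj1
        refine hI1.subset (Finset.coe_subset.2 ?_)
        refine Finset.insert_subset_insert e ?_
        exact Finset.erase_subset_erase y Finset.subset_union_left
      · refine (hVi j (cls y)).subset (Finset.coe_subset.2 ?_)
        refine Finset.insert_subset ?_ ?_
        · exact Finset.mem_union_right _ (Finset.mem_filter.2 ⟨hmem e l heV h5 j hj1, h3⟩)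
        · exact (Finset.erase_subset _ _).trans Finset.subset_union_left
    · intro x hx
      rw [Finset.mem_insert, Finset.mem_erase, Finset.mem_filter] at hx
      rw [Finset.mem_union, Finset.mem_singleton]
      tauto
    · rw [Finset.sum_insert heF]
      have h7 := Finset.add_sum_erase (B.filter (fun x => cls x ≤ cls y)) u hyF
      have h8 := hpot y
      have h9 := hu3 e y h3 (not_le.1 hlt)
      linarith
  -- charging
  have hcharge : ∑ e ∈ S \ B, h e =
      ∑ l : Fin k, ∑ e ∈ (S \ B) \ V l, h e / c e := by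
    have h1 : ∀ e ∈ S \ B, h e = ∑ l : Fin k, if e ∉ V l then h e / c e else 0 := by
      intro e he
      rw [← Finset.sum_filter, Finset.sum_const, nsmul_eq_mul, ← hc e]
      have h2 : (0 : ℝ) < c e := by exact_mod_cast hc1 e he
      field_simp
    rw [Finset.sum_congr rfl h1, Finset.sum_comm]
    refine Finset.sum_congr rfl fun l _ => ?_
    rw [← Finset.sum_filter]
    refine Finset.sum_congr ?_ fun _ _ => rfl
    ext e
    simp only [Finset.mem_filter, Finset.mem_sdiff]
  have hfib : ∀ l : Fin k, ∑ e ∈ (S \ B) \ V l, h e / c e =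
      ∑ y ∈ B \ S, ∑ e ∈ ((S \ B) \ V l).filter (fun e => φ l e = y), h e / c e :=
    fun l => (Finset.sum_fiberwise_of_maps_to (fun e he => (hφ l e he).1) _).symm
  have hy : ∀ y ∈ B \ S, ∑ l : Fin k, ∑ e ∈ ((S \ B) \ V l).filter (fun e => φ l e = y),
      h e / c e ≤ c₀ * w y := by
    intro y _
    have hnn : 0 ≤ bt y := hbt0 _
    let full : Fin k → Prop := fun l => ∃ e ∈ (S \ B) \ V l, φ l e = y ∧ cls e = cls y ∧ c e = 1
    have hsing : ∀ l, ∀ e ∈ ((S \ B) \ V l).filter (fun e => φ l e = y),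
        ((S \ B) \ V l).filter (fun e => φ l e = y) = {e} := by
      intro l e he
      refine Finset.eq_singleton_iff_unique_mem.2 ⟨he, fun e' he' => ?_⟩
      obtain ⟨h2, h3⟩ := Finset.mem_filter.1 he
      obtain ⟨h4, h5⟩ := Finset.mem_filter.1 he'
      exact hinj l (Finset.mem_coe.2 h4) (Finset.mem_coe.2 h2) (h5.trans h3.symm)
    have h1 : ∀ l, ¬ full l → ∑ e ∈ ((S \ B) \ V l).filter (fun e => φ l e = y), h e / c e ≤
        bt y := by
      intro l hf
      rcases (((S \ B) \ V l).filter (fun e => φ l e = y)).eq_empty_or_nonempty with h0 | ⟨e, he⟩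
      · rw [h0, Finset.sum_empty]
        exact hnn
      · rw [hsing l e he, Finset.sum_singleton]
        obtain ⟨h2, h3⟩ := Finset.mem_filter.1 he
        have h4 : cls y ≤ cls e := h3 ▸ (hφ l e h2).2.1
        have h5 : 1 ≤ c e := hc1 e (Finset.mem_sdiff.1 h2).1
        have h5R : (1 : ℝ) ≤ c e := by exact_mod_cast h5
        by_cases h7 : cls e = cls y
        · have h8 : c e ≠ 1 := fun h => hf ⟨e, h2, h3, h7, h⟩
          have h9 : 2 ≤ c e := by omega
          have h10 : (2 : ℝ) ≤ c e := by exact_mod_cast h9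
          calc h e / c e ≤ h e / 2 := div_le_div_of_nonneg_left (hh0 _) two_pos h10
            _ ≤ bt y := by linarith [h2' e y h7]
        · have h8 : cls y < cls e := lt_of_le_of_ne h4 (Ne.symm h7)
          calc h e / c e ≤ h e := div_le_self (hh0 _) h5R
            _ ≤ bt y := h1' e y h8
    have huniq : ∀ l l', full l → full l' → l = l' := by
      intro l l' hl hl'
      obtain ⟨e, he, h3, h4, h5⟩ := hl
      obtain ⟨e', he', h3', h4', h5'⟩ := hl'
      exact hpair y l l' e he e' he' h3 h3' h4 h4' h5 h5'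
    by_cases hex : ∃ l, full l
    · obtain ⟨l, hl⟩ := hex
      rw [← Finset.add_sum_erase Finset.univ _ (Finset.mem_univ l)]
      have h2 : ∑ j ∈ (Finset.univ : Finset (Fin k)).erase l,
          ∑ e ∈ ((S \ B) \ V j).filter (fun e => φ j e = y), h e / c e ≤
          ∑ _j ∈ (Finset.univ : Finset (Fin k)).erase l, bt y := by
        refine Finset.sum_le_sum fun j hj => h1 j fun hf => ?_
        exact (Finset.mem_erase.1 hj).1 (huniq j l hf hl)
      rw [Finset.sum_const, Finset.card_erase_of_mem (Finset.mem_univ l), Finset.card_univ,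
        Fintype.card_fin, nsmul_eq_mul] at h2
      have hk1 : 1 ≤ k := Nat.one_le_iff_ne_zero.2 (by rintro rfl; exact l.elim0)
      rw [Nat.cast_sub hk1, Nat.cast_one] at h2
      obtain ⟨e, he, h3, h4, h5⟩ := hl
      have hw := hsingle y l e he h3 h4 h5
      rw [hsing l e (Finset.mem_filter.2 ⟨he, h3⟩), Finset.sum_singleton, h5, Nat.cast_one,
        div_one]
      have := h3' e y h4 hw
      linarith
    · push Not at hex
      refine (Finset.sum_le_sum fun l _ => h1 l (hex l)).trans ?_
      rw [Finset.sum_const, Finset.card_univ, Fintype.card_fin, nsmul_eq_mul]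
      exact h4' y
  have hmain : ∑ e ∈ S \ B, h e ≤ c₀ * ∑ y ∈ B \ S, w y := by
    rw [hcharge, Finset.sum_congr rfl fun l _ => hfib l, Finset.sum_comm, Finset.mul_sum]
    exact Finset.sum_le_sum hy
  have h1 : ∑ e ∈ S \ B, h e + ∑ e ∈ S ∩ B, h e = ∑ e ∈ S, h e := by
    have := Finset.sum_sdiff (f := fun e => h e) (Finset.inter_subset_left (s₁ := S) (s₂ := B))
    rwa [Finset.sdiff_inter_self_left] at this
  have h2 : ∑ e ∈ B \ S, w e + ∑ e ∈ S ∩ B, w e = ∑ e ∈ B, w e := by
    have := Finset.sum_sdiff (f := fun e => w e) (Finset.inter_subset_right (s₁ := S) (s₂ := B))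
    rwa [Finset.sdiff_inter_self_right] at this
  have h3 : ∑ e ∈ S ∩ B, h e ≤ c₀ * ∑ e ∈ S ∩ B, w e := by
    rw [Finset.mul_sum]
    exact Finset.sum_le_sum fun e _ => h5' e
  rw [← h1, ← h2, mul_add]
  linarith

/-- Many disjoint augmentations. -/
theorem many_gen {k : ℕ} (M : Fin k → Matroid E)
    (hE : ∀ i, (M i).E = Set.univ) (cls : E → ℕ) (u h w bt : E → ℝ) (c₀ : ℝ)
    (hu0 : ∀ e, 0 ≤ u e)
    (hu1 : ∀ e, ∑ x ∈ Finset.univ.filter (fun x => cls e < cls x), u x < u e)
    (hu2 : ∀ e e' y, cls e = cls y → cls e' = cls y →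
      ∑ x ∈ Finset.univ.filter (fun x => cls y < cls x), u x + u y < u e + u e')
    (hu3 : ∀ e y, cls e = cls y → w y < w e →
      ∑ x ∈ Finset.univ.filter (fun x => cls y < cls x), u x + u y < u e)
    (hh0 : ∀ e, 0 ≤ h e) (hbt0 : ∀ e, 0 ≤ bt e)
    (h1' : ∀ e y, cls y < cls e → h e ≤ bt y)
    (h2' : ∀ e y, cls e = cls y → h e ≤ 2 * bt y)
    (h3' : ∀ e y, cls e = cls y → w e ≤ w y → h e + ((k : ℝ) - 1) * bt y ≤ c₀ * w y)
    (h4' : ∀ y, (k : ℝ) * bt y ≤ c₀ * w y)
    (h5' : ∀ e, h e ≤ c₀ * w e) {B : Finset E}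
    (hB : ∀ i, (M i).Indep (B : Set E)) {Γ : ℝ} (n : ℕ) :
    ∀ S : Finset E, S.card = n → (∀ i, (M i).Indep (S : Set E)) →
      (∀ e ∈ S, h e ≤ Γ) →
      ∃ F : Finset (Finset E), (∀ X ∈ F, X ⊆ S ∧ X.Nonempty ∧ AugG M u B X) ∧
        ((F : Set (Finset E)).PairwiseDisjoint id) ∧
        ∑ e ∈ S, h e ≤ c₀ * (∑ e ∈ B, w e) + 2 * Γ * F.card :=
  many_of M u h hh0
    (fun _ hS hno => charge_gen M hE cls u h w bt c₀ hu0 hu1 hu2 hu3 hh0 hbt0 h1' h2' h3' h4' h5'
      hB hS hno) n

end Pool.Agent.Helper11.SX
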