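import Pool.Agent.Helper11.SX.Glue
import Pool.Agent.Helper55.SX.GridX

/-!
# The block theorem with the exact constant, `k ≥ 2`
-/

set_option autoImplicit false

namespace Pool.Agent.Helper11.SX

open Pool.Agent.Helper68.SP Pool.Agent.Helper39.SR Pool.Agent.Helper39.SW

/-- The block theorem with the exact constant, exactly the hypotheses of F4. -/
theorem dense_xe {E : Type} [Fintype E] [DecidableEq E] {k : ℕ} (hk : 2 ≤ k) {δ : ℝ} (hδ : 0 < δ)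
    (hδ1 : δ ≤ 1 / 2) (M : Fin k → Matroid E)
    (hE : ∀ i, (M i).E = Set.univ) {L : ℕ} (hL : 1 ≤ L) (S : ℕ → Finset E)
    (hSi : ∀ t < L, ∀ i, (M i).Indep (S t : Set E))
    (hSd : ∀ s < L, ∀ t < L, s ≠ t → Disjoint (S s) (S t)) (w : E → ℝ)
    {s Γ : ℝ} (hs : 0 < s) (hΓ : 1 ≤ Γ)
    (hSw : ∀ t < L, ∀ e ∈ S t, s ≤ w e ∧ w e ≤ Γ * s)
    {p : ℝ} (hp : 0 < p) (hp1 : p ≤ 1)
    (hLd : (1000000 * Γ ^ 2 / δ ^ 2) * L * Real.exp (-(p ^ 2 * L * (δ / (8 * Γ)))) ≤ 1)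
    (hLp : 4 * Γ ≤ p * L) :
    (1 - δ) * (Real.logb 2 (1 + 1 / (k : ℝ)) - δ) *
        ((1 / (L : ℝ)) * ∑ t ∈ Finset.range L, ∑ e ∈ S t, w e) ≤
      Ex (fun _ => p) (fun R => optC (fun T : Finset E => ∀ i, (M i).Indep (T : Set E)) w
        ((Finset.range L).biUnion S ∩ R)) := by
  refine dense_x_of hk ?_ hδ hδ1 M hE hL S hSi hSd w hs hΓ hSw hp hp1 hLd hLp
  intro lam _ hl
  obtain ⟨J, hJ, hG⟩ := Pool.Agent.Helper55.SX.grids_x (k := k) (by omega) hl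
  refine ⟨J, hJ, fun E _ _ w s Γ hs hw => ?_⟩
  obtain ⟨cls, D, h1, h2, h3, h4⟩ := hG w hs hw
  exact ⟨cls, D, h1, h2, fun σ e => (h3 σ e).1, h4⟩

/-- F4' of the skeleton, `k ≥ 2`. -/
theorem dense_x {k : ℕ} (hk : 2 ≤ k) {δ : ℝ} (hδ : 0 < δ) (hδ1 : δ ≤ 1 / 2) :
    ∃ K0 : ℝ, 1 ≤ K0 ∧ ∀ {E : Type} [Fintype E] [DecidableEq E] (M : Fin k → Matroid E)
      (_hE : ∀ i, (M i).E = Set.univ) {L : ℕ} (_hL : 1 ≤ L) (S : ℕ → Finset E)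
      (_hSi : ∀ t < L, ∀ i, (M i).Indep (S t : Set E))
      (_hSd : ∀ s < L, ∀ t < L, s ≠ t → Disjoint (S s) (S t)) (w : E → ℝ)
      {s Γ : ℝ} (_hs : 0 < s) (_hΓ : 1 ≤ Γ)
      (_hSw : ∀ t < L, ∀ e ∈ S t, s ≤ w e ∧ w e ≤ Γ * s)
      {p : ℝ} (_hp : 0 < p) (_hp1 : p ≤ 1)
      (_hLd : (K0 * Γ ^ 2 / δ ^ 2) * L * Real.exp (-(p ^ 2 * L * (δ / (8 * Γ)))) ≤ 1)
      (_hLp : 4 * Γ ≤ p * L),
      (1 - δ) * (Real.logb 2 (1 + 1 / (k : ℝ)) - δ) *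
        ((1 / (L : ℝ)) * ∑ t ∈ Finset.range L, ∑ e ∈ S t, w e) ≤
      Ex (fun _ => p) (fun R => optC (fun T : Finset E => ∀ i, (M i).Indep (T : Set E)) w
        ((Finset.range L).biUnion S ∩ R)) :=
  ⟨1000000, by norm_num, fun M hE _ hL S hSi hSd w _ _ hs hΓ hSw _ hp hp1 hLd hLp =>
    dense_xe hk hδ hδ1 M hE hL S hSi hSd w hs hΓ hSw hp hp1 hLd hLp⟩

end Pool.Agent.Helper11.SX
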