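import Pool.Agent.Helper80.WM.DenseGen
import Pool.Agent.Helper68.SX.Pot
import Pool.Agent.Helper11.SX.Charge

/-!
# The block theorem with the exact constant
-/

set_option autoImplicit false

namespace Pool.Agent.Helper11.SX

open Pool.Agent.Helper68.SP Pool.Agent.Helper39.SR Pool.Agent.Helper39.SW

variable {E : Type} [Fintype E] [DecidableEq E]

/-- The block theorem, average form, for a family of grids. -/
theorem dense_avg4 {k : ℕ} (M : Fin k → Matroid E) {L : ℕ} (hL : 1 ≤ L) (S : ℕ → Finset E)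
    (hSi : ∀ t < L, ∀ i, (M i).Indep (S t : Set E))
    (hSd : ∀ s < L, ∀ t < L, s ≠ t → Disjoint (S s) (S t)) (w : E → ℝ)
    {s Γ : ℝ} (hs : 0 < s) (hΓ : 1 ≤ Γ)
    (hSw : ∀ t < L, ∀ e ∈ S t, s ≤ w e ∧ w e ≤ Γ * s)
    {p δ : ℝ} (hp : 0 < p) (hp1 : p ≤ 1) (hδ : 0 < δ) (hδ1 : δ ≤ 1)
    (hLd : (1000000 * Γ ^ 2 / δ ^ 2) * L * Real.exp (-(p ^ 2 * L * (δ / (8 * Γ)))) ≤ 1)
    (hLp : 4 * Γ ≤ p * L) {J : ℕ} (hJ : 1 ≤ J) (u h : Fin J → E → ℝ) {c κ : ℝ} (hc : 0 < c)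
    (hκ : 1 / c * κ ≤ 4 / 5) (hκδ : δ / 4 ≤ κ)
    (hhw : ∀ σ, ∀ t < L, ∀ e ∈ S t, h σ e ≤ c * w e)
    (havg : ∀ t < L, ∀ e ∈ S t, J * κ * w e ≤ ∑ σ, h σ e)
    (hmany : ∀ σ, ∀ B : Finset E, (∀ i, (M i).Indep (B : Set E)) → ∀ t < L,
      ∃ F : Finset (Finset E), (∀ X ∈ F, X ⊆ S t ∧ X.Nonempty ∧ AugG M (u σ) B X) ∧
        ((F : Set (Finset E)).PairwiseDisjoint id) ∧
        ∑ e ∈ S t, h σ e ≤ c * (∑ e ∈ B, w e) + 2 * (Γ * s) * F.card) :
    (1 - δ / 4) * ((1 / c) * (κ - δ / 4)) *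
        ((1 / (L : ℝ)) * ∑ t ∈ Finset.range L, ∑ e ∈ S t, w e) ≤
      Ex (fun _ => p) (fun R => optC (fun T : Finset E => ∀ i, (M i).Indep (T : Set E)) w
        ((Finset.range L).biUnion S ∩ R)) := by
  classical
  have hLR : (1 : ℝ) ≤ L := by exact_mod_cast hL
  have hLpos : (0 : ℝ) < L := by linarith
  have hJR : (1 : ℝ) ≤ J := by exact_mod_cast hJ
  have hJpos : (0 : ℝ) < J := by linarith
  have hΓ0 : 0 < Γ := by linarith
  set W : ℝ := (1 / (L : ℝ)) * ∑ t ∈ Finset.range L, ∑ e ∈ S t, w e with hWdef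
  have hW : L * W = ∑ t ∈ Finset.range L, ∑ e ∈ S t, w e := by
    rw [hWdef]
    field_simp
  have hW0 : 0 ≤ W := by
    refine mul_nonneg (by positivity) (Finset.sum_nonneg fun t ht => Finset.sum_nonneg fun e he => ?_)
    exact hs.le.trans (hSw t (Finset.mem_range.1 ht) e he).1
  have hc0 : 0 ≤ 1 / c := by positivity
  rcases le_or_gt W s with hWs | hWs
  · refine le_trans ?_ (Pool.Agent.Helper80.WM.dense_tiny M hL S hSi hSd w hs hΓ hSw hp hp1 hLp hW hWs)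
    refine mul_le_mul_of_nonneg_right ?_ hW0
    have h2 : 0 ≤ (1 / c) * (κ - δ / 4) := mul_nonneg hc0 (by linarith)
    have h3 : (1 - δ / 4) * ((1 / c) * (κ - δ / 4)) ≤ 1 * ((1 / c) * (κ - δ / 4)) :=
      mul_le_mul_of_nonneg_right (by linarith) h2
    have h4 : (1 / c) * (κ - δ / 4) ≤ (1 / c) * κ := mul_le_mul_of_nonneg_left (by linarith) hc0
    linarith
  · set Q' : Finset E := (Finset.range L).biUnion S with hQ'
    have hLd' : Real.exp 1 * L * Real.exp (-(p ^ 2 * L * (δ / 4) / (2 * Γ))) ≤ δ / 4 := by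
      have hexp1 : Real.exp 1 ≤ 3 := by
        have := Real.exp_one_lt_d9
        linarith
      have h2 : p ^ 2 * L * (δ / 4) / (2 * Γ) = p ^ 2 * L * (δ / (8 * Γ)) := by
        field_simp
        ring
      rw [h2]
      set Z : ℝ := L * Real.exp (-(p ^ 2 * L * (δ / (8 * Γ)))) with hZ
      have hZ0 : 0 ≤ Z := by positivity
      have h4 : (1000000 * Γ ^ 2 / δ ^ 2) * Z ≤ 1 := by
        rw [hZ, ← mul_assoc]
        exact hLd
      have h5 : 3 * Z ≤ δ / 4 := by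
        have h6 : 12 / δ ≤ 1000000 * Γ ^ 2 / δ ^ 2 := by
          rw [div_le_div_iff₀ hδ (by positivity)]
          have h7 : (1 : ℝ) ≤ Γ ^ 2 := by nlinarith
          nlinarith [mul_pos hδ hδ]
        have h7 : 12 / δ * Z ≤ 1 := (mul_le_mul_of_nonneg_right h6 hZ0).trans h4
        have h8 : 3 * Z = 12 / δ * Z * (δ / 4) := by
          field_simp
          ring
        rw [h8]
        nlinarith
      calc Real.exp 1 * L * Real.exp (-(p ^ 2 * L * (δ / (8 * Γ)))) = Real.exp 1 * Z := by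
            rw [hZ]; ring
        _ ≤ 3 * Z := mul_le_mul_of_nonneg_right hexp1 hZ0
        _ ≤ δ / 4 := h5
    have hone : ∀ σ : Fin J, (1 - δ / 4) * ((1 / c) *
        ((1 / (L : ℝ)) * ∑ t ∈ Finset.range L, ∑ e ∈ S t, h σ e - δ / 4 * W)) ≤
        Ex (fun _ => p) (fun R => optC (fun T : Finset E => ∀ i, (M i).Indep (T : Set E)) w
          (Q' ∩ R)) := by
      intro σ
      refine Pool.Agent.Helper80.WM.dense_gen M hL S hSd w hs hΓ hSw hp.le hp1 (by linarith) (by linarith) hLd' (u σ) (h σ) hc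
        (hhw σ) (hmany σ) hW ?_ hWs.le
      field_simp
    have hsum := Finset.sum_le_sum fun σ (_ : σ ∈ (Finset.univ : Finset (Fin J))) => hone σ
    rw [Finset.sum_const, Finset.card_univ, Fintype.card_fin, nsmul_eq_mul, ← Finset.mul_sum,
      ← Finset.mul_sum, Finset.sum_sub_distrib, Finset.sum_const, Finset.card_univ,
      Fintype.card_fin, nsmul_eq_mul, ← Finset.mul_sum] at hsum
    have havg2 : J * κ * (L * W) ≤
        ∑ σ : Fin J, ∑ t ∈ Finset.range L, ∑ e ∈ S t, h σ e := by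
      rw [hW, Finset.sum_comm, Finset.mul_sum]
      refine Finset.sum_le_sum fun t ht => ?_
      rw [Finset.sum_comm, Finset.mul_sum]
      exact Finset.sum_le_sum fun e he => havg t (Finset.mem_range.1 ht) e he
    have h3 : J * κ * W ≤
        (1 / (L : ℝ)) * ∑ σ : Fin J, ∑ t ∈ Finset.range L, ∑ e ∈ S t, h σ e := by
      rw [one_div, ← div_eq_inv_mul, le_div_iff₀ hLpos]
      linarith
    have h4 : (1 - δ / 4) * ((1 / c) * (J * κ * W - J * (δ / 4 * W))) ≤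
        J * Ex (fun _ => p) (fun R => optC (fun T : Finset E => ∀ i, (M i).Indep (T : Set E)) w
          (Q' ∩ R)) := by
      refine le_trans ?_ hsum
      exact mul_le_mul_of_nonneg_left (mul_le_mul_of_nonneg_left (by linarith) hc0) (by linarith)
    have h5 : (1 - δ / 4) * ((1 / c) * (J * κ * W - J * (δ / 4 * W))) =
        J * ((1 - δ / 4) * ((1 / c) * (κ - δ / 4)) * W) := by ring
    rw [h5] at h4
    exact le_of_mul_le_mul_left h4 hJpos


omit [Fintype E] [DecidableEq E] in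
theorem optC_congr {Com : Finset E → Prop} {w w' : E → ℝ} {A : Finset E}
    (h : ∀ e ∈ A, w' e = w e) : optC Com w' A = optC Com w A := by
  unfold optC
  congr 1
  ext t
  constructor
  · rintro ⟨S, hS, hC, rfl⟩
    exact ⟨S, hS, hC, Finset.sum_congr rfl fun e he => h e (hS he)⟩
  · rintro ⟨S, hS, hC, rfl⟩
    exact ⟨S, hS, hC, Finset.sum_congr rfl fun e he => (h e (hS he)).symm⟩

/-- `logb 2 (1 + 1 / k) ≤ 4 / 5` for `k ≥ 2`. -/
theorem logb_le {k : ℕ} (hk : 2 ≤ k) : Real.logb 2 (1 + 1 / (k : ℝ)) ≤ 4 / 5 := by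
  have hk2 : (2 : ℝ) ≤ k := by exact_mod_cast hk
  have h1 : 1 + 1 / (k : ℝ) ≤ 3 / 2 := by
    have : 1 / (k : ℝ) ≤ 1 / 2 := one_div_le_one_div_of_le (by norm_num) hk2
    linarith
  have h2 : (0 : ℝ) < 1 + 1 / (k : ℝ) := by positivity
  have h3 : Real.log (1 + 1 / (k : ℝ)) ≤ Real.log (3 / 2) := Real.log_le_log h2 h1
  have h4 : 5 * Real.log (3 / 2) ≤ 4 * Real.log 2 := by
    have h5 : Real.log ((3 / 2 : ℝ) ^ 5) ≤ Real.log ((2 : ℝ) ^ 4) :=
      Real.log_le_log (by positivity) (by norm_num)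
    rw [Real.log_pow, Real.log_pow] at h5
    exact_mod_cast h5
  have h6 : 0 < Real.log 2 := Real.log_pos (by norm_num)
  unfold Real.logb
  rw [div_le_div_iff₀ h6 (by norm_num)]
  linarith

/-- The block theorem with the exact constant, from the grids. -/
theorem dense_x_of {k : ℕ} (hk : 2 ≤ k)
    (hgrid : ∀ lam : ℝ, 0 ≤ lam → lam < Real.logb 2 (1 + 1 / (k : ℝ)) → ∃ J : ℕ, 0 < J ∧
      ∀ (E : Type) [Fintype E] [DecidableEq E] (w : E → ℝ) (s Γ : ℝ), 0 < s →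
        (∀ e, s ≤ w e ∧ w e ≤ Γ * s) →
        ∃ (cls : Fin J → E → ℕ) (D : Fin J → ℕ → ℝ),
          (∀ σ i, 0 ≤ D σ i) ∧ (∀ σ i j, i < j → 2 * D σ j ≤ D σ i) ∧
          (∀ σ e, D σ (cls σ e) ≤ w e) ∧
          ∀ e, (J : ℝ) * (((k : ℝ) / 2) * lam) * w e ≤
            ∑ σ, min (D σ (cls σ e)) (((k : ℝ) / 2) * w e - (((k : ℝ) - 1) / 2) * D σ (cls σ e)))
    {δ : ℝ} (hδ : 0 < δ) (hδ1 : δ ≤ 1 / 2) (M : Fin k → Matroid E)
    (hE : ∀ i, (M i).E = Set.univ) {L : ℕ} (hL : 1 ≤ L) (S : ℕ → Finset E)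
    (hSi : ∀ t < L, ∀ i, (M i).Indep (S t : Set E))
    (hSd : ∀ s < L, ∀ t < L, s ≠ t → Disjoint (S s) (S t)) (w : E → ℝ)
    {s Γ : ℝ} (hs : 0 < s) (hΓ : 1 ≤ Γ)
    (hSw : ∀ t < L, ∀ e ∈ S t, s ≤ w e ∧ w e ≤ Γ * s)
    {p : ℝ} (hp : 0 < p) (hp1 : p ≤ 1)
    (hLd : (1000000 * Γ ^ 2 / δ ^ 2) * L * Real.exp (-(p ^ 2 * L * (δ / (8 * Γ)))) ≤ 1)
    (hLp : 4 * Γ ≤ p * L) :
    (1 - δ) * (Real.logb 2 (1 + 1 / (k : ℝ)) - δ) *
        ((1 / (L : ℝ)) * ∑ t ∈ Finset.range L, ∑ e ∈ S t, w e) ≤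
      Ex (fun _ => p) (fun R => optC (fun T : Finset E => ∀ i, (M i).Indep (T : Set E)) w
        ((Finset.range L).biUnion S ∩ R)) := by
  classical
  have hk2 : (2 : ℝ) ≤ k := by exact_mod_cast hk
  have hkpos : (0 : ℝ) < k := by linarith
  obtain ⟨a, ha⟩ : ∃ a, a = Real.logb 2 (1 + 1 / (k : ℝ)) := ⟨_, rfl⟩
  have ha45 : a ≤ 4 / 5 := ha ▸ logb_le hk
  have hW0 : 0 ≤ (1 / (L : ℝ)) * ∑ t ∈ Finset.range L, ∑ e ∈ S t, w e := by
    refine mul_nonneg (by positivity) (Finset.sum_nonneg fun t ht => Finset.sum_nonneg fun e he => ?_)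
    exact hs.le.trans (hSw t (Finset.mem_range.1 ht) e he).1
  rw [← ha]
  rcases le_or_gt a δ with haδ | haδ
  · refine le_trans (mul_nonpos_of_nonpos_of_nonneg ?_ hW0) ?_
    · exact mul_nonpos_of_nonneg_of_nonpos (by linarith) (by linarith)
    · exact Ex_nonneg (fun _ => ⟨hp.le, hp1⟩) fun R =>
        opt_nonneg (Com := fun T : Finset E => ∀ i, (M i).Indep (T : Set E)) (w := w)
          (fun i => by simp) _
  obtain ⟨J, hJ, hG⟩ := hgrid (a - δ / 2) (by linarith) (by rw [← ha]; linarith)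
  obtain ⟨w', hw'⟩ : ∃ w' : E → ℝ, w' = fun e => if s ≤ w e ∧ w e ≤ Γ * s then w e else s :=
    ⟨_, rfl⟩
  have hwr : ∀ e, s ≤ w' e ∧ w' e ≤ Γ * s := by
    intro e
    rw [hw']
    dsimp only
    split_ifs with h
    · exact h
    · exact ⟨le_rfl, by nlinarith⟩
  have hww : ∀ t < L, ∀ e ∈ S t, w' e = w e := by
    intro t ht e he
    rw [hw']
    exact if_pos (hSw t ht e he)
  obtain ⟨cls, D, hD0, hD2, hDw, havg⟩ := hG E w' s Γ hs hwr
  have hpot := fun σ => Pool.Agent.Helper68.SX.exists_pot (cls σ) w'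
  choose U hU0 hU1 hU3 hU2 using hpot
  have hκ : 1 / ((k : ℝ) / 2) * ((k : ℝ) / 2 * (a - δ / 2)) = a - δ / 2 := by
    field_simp
  have hmin0 : ∀ σ e, 0 ≤ min (D σ (cls σ e))
      (((k : ℝ) / 2) * w' e - (((k : ℝ) - 1) / 2) * D σ (cls σ e)) := by
    intro σ e
    have h1 := hD0 σ (cls σ e)
    have h2 := hDw σ e
    refine le_min h1 ?_
    nlinarith
  have hminc : ∀ σ e, min (D σ (cls σ e))
      (((k : ℝ) / 2) * w' e - (((k : ℝ) - 1) / 2) * D σ (cls σ e)) ≤ ((k : ℝ) / 2) * w' e := by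
    intro σ e
    have h1 := hD0 σ (cls σ e)
    refine (min_le_right _ _).trans ?_
    nlinarith
  have hminD : ∀ σ e, min (D σ (cls σ e))
      (((k : ℝ) / 2) * w' e - (((k : ℝ) - 1) / 2) * D σ (cls σ e)) ≤ D σ (cls σ e) :=
    fun σ e => min_le_left _ _
  have key := dense_avg4 M hL S hSi hSd w' hs hΓ
    (fun t ht e he => hwr e) hp hp1 hδ (by linarith) hLd hLp (Nat.one_le_iff_ne_zero.2 hJ.ne') U
    (fun σ e => min (D σ (cls σ e))
      (((k : ℝ) / 2) * w' e - (((k : ℝ) - 1) / 2) * D σ (cls σ e)))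
    (c := (k : ℝ) / 2) (κ := (k : ℝ) / 2 * (a - δ / 2)) (by linarith)
    (by rw [hκ]; linarith) (by nlinarith)
    (fun σ t ht e he => hminc σ e)
    (fun t ht e he => havg e)
    (fun σ B hB t ht => many_gen M hE (cls σ) (U σ) _ w' (fun y => D σ (cls σ y) / 2)
      ((k : ℝ) / 2) (hU0 σ) (hU1 σ)
      (fun e e' y h1 h2 => by have := hU2 σ y e e' h1 h2; linarith)
      (fun e y h1 h2 => by have := hU3 σ y e h1 h2; linarith)
      (hmin0 σ) (fun e => by have := hD0 σ (cls σ e); linarith)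
      (fun e y h1 => by
        have h2 := hD2 σ _ _ h1
        have h3 := hminD σ e
        linarith)
      (fun e y h1 => by
        have h3 := hminD σ e
        rw [h1] at h3
        rw [h1]
        linarith)
      (fun e y h1 h2 => by
        have h3 : min (D σ (cls σ e))
          (((k : ℝ) / 2) * w' e - (((k : ℝ) - 1) / 2) * D σ (cls σ e)) ≤
            ((k : ℝ) / 2) * w' e - (((k : ℝ) - 1) / 2) * D σ (cls σ e) := min_le_right _ _
        rw [h1] at h3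
        rw [h1]
        nlinarith)
      (fun y => by
        have h1 := hDw σ y
        nlinarith)
      (hminc σ) hB (S t).card (S t) rfl (hSi t ht)
      (fun e he => (hminD σ e).trans ((hDw σ e).trans (hwr e).2)))
  have hsum : ∑ t ∈ Finset.range L, ∑ e ∈ S t, w' e = ∑ t ∈ Finset.range L, ∑ e ∈ S t, w e :=
    Finset.sum_congr rfl fun t ht => Finset.sum_congr rfl fun e he =>
      hww t (Finset.mem_range.1 ht) e he
  rw [hsum] at key
  have hopt : (fun R => optC (fun T : Finset E => ∀ i, (M i).Indep (T : Set E)) w'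
      ((Finset.range L).biUnion S ∩ R)) =
      fun R => optC (fun T : Finset E => ∀ i, (M i).Indep (T : Set E)) w
        ((Finset.range L).biUnion S ∩ R) := by
    funext R
    refine optC_congr fun e he => ?_
    obtain ⟨t, ht, het⟩ := Finset.mem_biUnion.1 (Finset.mem_inter.1 he).1
    exact hww t (Finset.mem_range.1 ht) e het
  rw [hopt] at key
  refine le_trans (mul_le_mul_of_nonneg_right ?_ hW0) key
  have h1 : 1 / ((k : ℝ) / 2) * ((k : ℝ) / 2 * (a - δ / 2) - δ / 4) =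
      a - δ / 2 - δ / (2 * k) := by
    field_simp
    ring
  rw [h1]
  have h2 : δ / (2 * k) ≤ δ / 4 := div_le_div_of_nonneg_left hδ.le (by norm_num) (by linarith)
  have h3 : (1 - δ) * (a - δ) ≤ (1 - δ / 4) * (a - δ) :=
    mul_le_mul_of_nonneg_right (by linarith) (by linarith)
  have h4 : (1 - δ / 4) * (a - δ) ≤ (1 - δ / 4) * (a - δ / 2 - δ / (2 * k)) :=
    mul_le_mul_of_nonneg_left (by linarith) (by linarith)
  linarith

end Pool.Agent.Helper11.SX
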